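import Pool.Agent.K4H23.NZ.Spec

set_option autoImplicit false

open Finset Pointwise

namespace Pool.Agent.K4H23.NZ

/-- E2. -/
theorem e2 (e M : ℕ) (hM : 1 ≤ M) :
    AddSubgroup.closure (((slab e M 1).erase 0 : Finset (Fin (e + 1) → ℤ)) :
      Set (Fin (e + 1) → ℤ)) = ⊤ := by
  have hMZ : (1 : ℤ) ≤ (M : ℤ) := by exact_mod_cast hM
  have h1 : ∀ i : Fin (e + 1), (Pi.single i (1 : ℤ) : Fin (e + 1) → ℤ) ∈
      (((slab e M 1).erase 0 : Finset (Fin (e + 1) → ℤ)) : Set (Fin (e + 1) → ℤ)) := by
    intro i
    rw [Finset.coe_erase]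
    refine ⟨?_, ?_⟩
    · unfold slab
      rw [Finset.mem_coe, Finset.mem_Icc]
      constructor
      · intro k
        by_cases hk : k = i
        · subst hk; simp
        · simp [Pi.single_eq_of_ne hk]
      · intro k
        refine Fin.cases ?_ (fun j => ?_) k
        · rw [Fin.cons_zero]
          by_cases hk : (0 : Fin (e + 1)) = i
          · subst hk; simp
          · rw [Pi.single_eq_of_ne hk]; simp
        · rw [Fin.cons_succ]
          by_cases hk : j.succ = i
          · subst hk; simp; omega
          · rw [Pi.single_eq_of_ne hk]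
            show (0 : ℤ) ≤ (M : ℤ)
            omega
    · simp only [Set.mem_singleton_iff]
      intro h
      have := congrFun h i
      simp at this
  rw [eq_top_iff]
  intro x _
  have hx : x = ∑ i, x i • (Pi.single i (1 : ℤ) : Fin (e + 1) → ℤ) := by
    funext k
    simp [Finset.sum_apply, Pi.single_apply]
  rw [hx]
  exact AddSubgroup.sum_mem _ fun i _ => AddSubgroup.zsmul_mem _ (AddSubgroup.subset_closure (h1 i)) _

end Pool.Agent.K4H23.NZ
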