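import Mathlib

/-!
# Self-homeomorphisms of the Knaster continuum have at least two fixed points
-/

set_option autoImplicit false

open Set Filter Topology

namespace Pool.Agent.K4H36.Knaster

/-- The Knaster continuum as the inverse limit of the tent map. -/
abbrev K : Type :=
  {x : ℕ → ℝ // (∀ n, x n ∈ Set.Icc (0:ℝ) 1) ∧ ∀ n, x n = 1 - |2 * x (n+1) - 1|}

/-! ### The folding map -/

/-- twice the distance to the nearest integer -/
noncomputable def tau (s : ℝ) : ℝ := 2 * |s - round s|

lemma tau_nonneg (s : ℝ) : 0 ≤ tau s := by unfold tau; positivity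

lemma tau_le_one (s : ℝ) : tau s ≤ 1 := by
  unfold tau
  have := abs_sub_round s
  linarith

lemma tau_le (s : ℝ) (z : ℤ) : tau s ≤ 2 * |s - z| := by
  unfold tau
  have := round_le s z
  linarith

lemma tau_eq {s : ℝ} {z : ℤ} (h : |s - z| ≤ 1 / 2) : tau s = 2 * |s - z| := by
  apply le_antisymm (tau_le s z)
  unfold tau
  by_cases hz : round s = z
  · rw [hz]
  · have h1 : (1 : ℝ) ≤ |(round s : ℝ) - z| := by
      have : (1 : ℤ) ≤ |round s - z| := Int.one_le_abs (sub_ne_zero.2 hz)
      exact_mod_cast this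
    have h2 : |(round s : ℝ) - z| ≤ |s - round s| + |s - z| := by
      have := abs_sub_le (round s : ℝ) s z
      rwa [abs_sub_comm (round s : ℝ) s] at this
    linarith

lemma tau_add_int (s : ℝ) (z : ℤ) : tau (s + z) = tau s := by
  unfold tau
  rw [round_add_intCast]
  push_cast
  congr 2
  ring

lemma tau_neg (s : ℝ) : tau (-s) = tau s := by
  apply le_antisymm
  · have := tau_le (-s) (-round s)
    rw [tau]
    refine this.trans (le_of_eq ?_)
    push_cast
    rw [← abs_neg]
    congr 2
    ring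
  · have := tau_le s (-round (-s))
    rw [tau.eq_1 (-s)]
    refine this.trans (le_of_eq ?_)
    push_cast
    rw [← abs_neg]
    congr 2
    ring

lemma tau_zero : tau 0 = 0 := by simp [tau]

lemma tau_of_mem {s : ℝ} (h0 : 0 ≤ s) (h1 : s ≤ 1 / 2) : tau s = 2 * s := by
  have := tau_eq (s := s) (z := 0) (by rw [Int.cast_zero, sub_zero, abs_of_nonneg h0]; exact h1)
  rw [this, Int.cast_zero, sub_zero, abs_of_nonneg h0]

lemma tau_sub_le (s t : ℝ) : tau s - tau t ≤ 2 * |s - t| := by
  have h1 := tau_le s (round t)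
  have h2 := abs_sub_le s t (round t)
  have h3 : tau t = 2 * |t - round t| := rfl
  linarith

lemma continuous_tau : Continuous tau := by
  have : LipschitzWith 2 tau := by
    apply LipschitzWith.of_dist_le_mul
    intro s t
    rw [Real.dist_eq, Real.dist_eq]
    have h1 := tau_sub_le s t
    have h2 := tau_sub_le t s
    rw [abs_sub_comm t s] at h2
    rw [abs_le]
    constructor <;> push_cast <;> linarith
  exact this.continuous

/-- the tent map conjugates to doubling -/
lemma tent_tau (s : ℝ) : 1 - |2 * tau s - 1| = tau (2 * s) := by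
  set r := s - round s with hr
  have hr1 : |r| ≤ 1 / 2 := abs_sub_round s
  have e1 : tau s = 2 * |r| := rfl
  have e2 : tau (2 * s) = tau (2 * r) := by
    have : 2 * s = 2 * r + ((2 * round s : ℤ) : ℝ) := by rw [hr]; push_cast; ring
    rw [this, tau_add_int]
  have e3 : tau (2 * r) = tau (2 * |r|) := by
    rcases abs_cases r with ⟨h, _⟩ | ⟨h, _⟩
    · rw [h]
    · rw [h, mul_neg, tau_neg]
  rw [e2, e3, e1]
  have h0 := abs_nonneg r
  by_cases h : |r| ≤ 1 / 4
  · rw [tau_of_mem (by positivity) (by linarith), abs_of_nonpos (by linarith)]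
    ring
  · push Not at h
    have h5 : |2 * (2 * |r|) - 1| = 2 * (2 * |r|) - 1 := abs_of_nonneg (by linarith)
    have h6 : |2 * |r| - ((1 : ℤ) : ℝ)| = 1 - 2 * |r| := by
      rw [abs_of_nonpos (by push_cast; linarith)]
      push_cast
      ring
    rw [tau_eq (z := 1) (by rw [h6]; linarith), h5, h6]
    ring

lemma tau_close {x y η : ℝ} (h : |tau x - tau y| < 2 * η) :
    (∃ z : ℤ, |x - y - z| < η) ∨ (∃ z : ℤ, |x + y - z| < η) := by
  unfold tau at h
  set r := x - round x with hr
  set s := y - round y with hs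
  have h1 : |(|r| - |s|)| < η := by
    have : 2 * |r| - 2 * |s| = 2 * (|r| - |s|) := by ring
    rw [this, abs_mul, abs_two] at h
    linarith
  have h2 : |r - s| < η ∨ |r + s| < η := by
    rcases abs_cases r with ⟨hr1, _⟩ | ⟨hr1, _⟩ <;> rcases abs_cases s with ⟨hs1, _⟩ | ⟨hs1, _⟩ <;>
      rw [hr1, hs1] at h1
    · left; exact h1
    · right; rwa [sub_neg_eq_add] at h1
    · right
      rw [← abs_neg]
      convert h1 using 2
      ring
    · left
      rw [← abs_neg]
      convert h1 using 2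
      ring
  rcases h2 with h2 | h2
  · left
    refine ⟨round x - round y, ?_⟩
    convert h2 using 2
    push_cast
    rw [hr, hs]
    ring
  · right
    refine ⟨round x + round y, ?_⟩
    convert h2 using 2
    push_cast
    rw [hr, hs]
    ring

/-! ### Lines in `K` -/

/-- The line in `K` through the point with angles `c`. -/
noncomputable def line (c : ℕ → ℝ) (hc : ∀ n, ∃ z : ℤ, 2 * c (n + 1) = c n + z) (t : ℝ) : K :=
  ⟨fun n => tau (c n + t / 2 ^ n), fun n => ⟨tau_nonneg _, tau_le_one _⟩, fun n => by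
    show tau (c n + t / 2 ^ n) = 1 - |2 * tau (c (n + 1) + t / 2 ^ (n + 1)) - 1|
    rw [tent_tau]
    obtain ⟨z, hz⟩ := hc n
    have : 2 * (c (n + 1) + t / 2 ^ (n + 1)) = c n + t / 2 ^ n + z := by
      rw [mul_add, hz, pow_succ]
      field_simp
      ring
    rw [this, tau_add_int]⟩

lemma continuous_line (c : ℕ → ℝ) (hc) : Continuous (line c hc) := by
  apply Continuous.subtype_mk
  apply continuous_pi
  intro n
  exact continuous_tau.comp (by fun_prop)

/-- The ray in `K` that starts at the end point. -/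
noncomputable def P (t : ℝ) : K := line (fun _ => 0) (fun _ => ⟨0, by simp⟩) t

lemma P_apply (t : ℝ) (n : ℕ) : (P t).1 n = tau (t / 2 ^ n) := by
  simp [P, line]

lemma continuous_P : Continuous P := continuous_line (fun _ => 0) (fun _ => ⟨0, by simp⟩)

lemma P_neg (t : ℝ) : P (-t) = P t := by
  apply Subtype.ext
  funext n
  rw [P_apply, P_apply, neg_div, tau_neg]

/-- The end point. -/
noncomputable def e : K := P 0

lemma e_apply (n : ℕ) : e.1 n = 0 := by
  rw [e, P_apply, zero_div, tau_zero]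

lemma exists_pow_large (s : ℝ) : ∃ n : ℕ, s / 2 ^ n ≤ 1 / 2 := by
  obtain ⟨n, hn⟩ := pow_unbounded_of_one_lt (2 * s) (one_lt_two (α := ℝ))
  refine ⟨n, ?_⟩
  rw [div_le_iff₀ (by positivity)]
  linarith

lemma P_inj {s t : ℝ} (hs : 0 ≤ s) (ht : 0 ≤ t) (h : P s = P t) : s = t := by
  obtain ⟨n, hn⟩ := exists_pow_large s
  obtain ⟨m, hm⟩ := exists_pow_large t
  have key : ∀ (x : ℝ) (a b : ℕ), 0 ≤ x → x / 2 ^ a ≤ 1 / 2 → a ≤ b → x / 2 ^ b ≤ 1 / 2 := by
    intro x a b hx h hab
    refine le_trans ?_ h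
    apply div_le_div_of_nonneg_left hx (by positivity)
    exact pow_le_pow_right₀ (by norm_num) hab
  have h1 := key s n (max n m) hs hn (le_max_left _ _)
  have h2 := key t m (max n m) ht hm (le_max_right _ _)
  have h3 : (P s).1 (max n m) = (P t).1 (max n m) := by rw [h]
  rw [P_apply, P_apply, tau_of_mem (by positivity) h1, tau_of_mem (by positivity) h2] at h3
  have h4 : (0 : ℝ) < 2 ^ (max n m) := by positivity
  field_simp at h3
  linarith

/-! ### Lifting paths that start at the end point -/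

lemma coord_continuous (n : ℕ) : Continuous (fun x : K => x.1 n) :=
  (continuous_apply n).comp continuous_subtype_val

section Lift

variable {A : ℝ → K} (hA : Continuous A) (hA0 : A 0 = e)

include hA

lemma alternation {b δ : ℝ} 
    (hδ : ∀ s t, 0 ≤ s → s < t → t ≤ b → t - s < δ → |(A s).1 0 - (A t).1 0| < 1) :
    ∀ (n : ℕ) (s t : ℝ), 0 ≤ s → s < t → t ≤ b →
      (((A s).1 n = 0 ∧ (A t).1 n = 1) ∨ ((A s).1 n = 1 ∧ (A t).1 n = 0)) → 2 ^ n * δ ≤ t - s := by
  intro n
  induction n with
  | zero =>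
    intro s t hs hst htb h
    by_contra hlt
    push Not at hlt
    have := hδ s t hs hst htb (by simpa using hlt)
    rcases h with ⟨h1, h2⟩ | ⟨h1, h2⟩ <;> rw [h1, h2] at this <;> norm_num at this
  | succ n ih =>
    intro s t hs hst htb h
    have hcont : Continuous (fun x => (A x).1 (n + 1)) := (coord_continuous (n + 1)).comp hA
    have hmid : ∃ m ∈ Icc s t, (A m).1 (n + 1) = 1 / 2 := by
      rcases h with ⟨h1, h2⟩ | ⟨h1, h2⟩
      · have := intermediate_value_Icc hst.le hcont.continuousOn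
        apply this
        simp only [h1, h2]
        constructor <;> norm_num
      · have := intermediate_value_Icc' hst.le hcont.continuousOn
        apply this
        simp only [h1, h2]
        constructor <;> norm_num
    obtain ⟨m, hm, hm2⟩ := hmid
    have e1 : (A m).1 n = 1 := by rw [(A m).2.2 n, hm2]; norm_num
    have es : (A s).1 n = 0 := by
      rw [(A s).2.2 n]
      rcases h with ⟨h1, h2⟩ | ⟨h1, h2⟩ <;> rw [h1] <;> norm_num
    have et : (A t).1 n = 0 := by
      rw [(A t).2.2 n]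
      rcases h with ⟨h1, h2⟩ | ⟨h1, h2⟩ <;> rw [h2] <;> norm_num
    have hsm : s < m := by
      rcases hm.1.lt_or_eq with h' | h'
      · exact h'
      · rw [← h', es] at e1; norm_num at e1
    have hmt : m < t := by
      rcases hm.2.lt_or_eq with h' | h'
      · exact h'
      · rw [h', et] at e1; norm_num at e1
    have i1 := ih s m hs hsm (hmt.le.trans htb) (Or.inl ⟨es, e1⟩)
    have i2 := ih m t (hs.trans hsm.le) hmt htb (Or.inr ⟨e1, et⟩)
    rw [pow_succ]
    nlinarith

include hA0

lemma eventually_small (b : ℝ) :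
    ∃ n₀ : ℕ, ∀ n ≥ n₀, ∀ t, 0 ≤ t → t ≤ b → (A t).1 n < 1 / 2 := by
  have hc0 : Continuous (fun x => (A x).1 0) := (coord_continuous 0).comp hA
  have huc : UniformContinuousOn (fun x => (A x).1 0) (Icc 0 b) :=
    isCompact_Icc.uniformContinuousOn_of_continuous hc0.continuousOn
  rw [Metric.uniformContinuousOn_iff] at huc
  obtain ⟨δ, hδ0, hδ⟩ := huc 1 one_pos
  have halt := alternation hA (b := b) (δ := δ) (by
    intro s t hs hst htb h
    have := hδ s ⟨hs, hst.le.trans htb⟩ t ⟨hs.trans hst.le, htb⟩ (by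
      rw [Real.dist_eq, abs_sub_comm, abs_of_pos (by linarith)]; exact h)
    rwa [Real.dist_eq] at this)
  obtain ⟨n₀, hn₀⟩ := pow_unbounded_of_one_lt (b / δ) (one_lt_two (α := ℝ))
  refine ⟨n₀ + 1, ?_⟩
  intro n hn t ht htb
  by_contra hge
  push Not at hge
  obtain ⟨m, rfl⟩ : ∃ m, n = m + 1 := ⟨n - 1, by omega⟩
  have hcont : Continuous (fun x => (A x).1 (m + 1)) := (coord_continuous (m + 1)).comp hA
  have h0 : (A 0).1 (m + 1) = 0 := by rw [hA0, e_apply]
  obtain ⟨t', ht', h'⟩ : (1 / 2 : ℝ) ∈ (fun x => (A x).1 (m + 1)) '' Icc 0 t := by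
    apply intermediate_value_Icc ht hcont.continuousOn
    simp only [h0]
    exact ⟨by norm_num, hge⟩
  simp only at h'
  have e1 : (A t').1 m = 1 := by rw [(A t').2.2 m, h']; norm_num
  have e0 : (A 0).1 m = 0 := by rw [hA0, e_apply]
  have hpos : 0 < t' := by
    rcases ht'.1.lt_or_eq with h | h
    · exact h
    · rw [← h, e0] at e1; norm_num at e1
  have := halt m 0 t' le_rfl hpos (ht'.2.trans htb) (Or.inl ⟨e0, e1⟩)
  have h2 : (2 : ℝ) ^ n₀ ≤ 2 ^ m := pow_le_pow_right₀ (by norm_num) (by omega)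
  rw [div_lt_iff₀ hδ0] at hn₀
  have h3 : t' ≤ b := ht'.2.trans htb
  nlinarith

omit hA hA0 in
lemma eq_P {b : ℝ} {n₀ : ℕ} (h : ∀ n ≥ n₀, ∀ t, 0 ≤ t → t ≤ b → (A t).1 n < 1 / 2)
    {t : ℝ} (ht : 0 ≤ t) (htb : t ≤ b) : A t = P (2 ^ n₀ * (A t).1 n₀ / 2) := by
  apply Subtype.ext
  funext n
  rw [P_apply]
  -- for n ≥ n₀
  have hge : ∀ k, (A t).1 (n₀ + k) = (A t).1 n₀ / 2 ^ k := by
    intro k
    induction k with
    | zero => simp
    | succ k ih =>
      have h1 := (A t).2.2 (n₀ + k)
      have h2 := h (n₀ + k + 1) (by omega) t ht htb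
      have h3 := ((A t).2.1 (n₀ + k + 1)).1
      rw [abs_of_nonpos (by linarith)] at h1
      rw [← add_assoc, pow_succ, ← div_div, ← ih]
      linarith
  have hA0' := ((A t).2.1 n₀).1
  have hA1' := h n₀ le_rfl t ht htb
  rcases le_total n₀ n with hn | hn
  · obtain ⟨k, rfl⟩ := Nat.exists_eq_add_of_le hn
    rw [hge k]
    have e1 : 2 ^ n₀ * (A t).1 n₀ / 2 / 2 ^ (n₀ + k) = (A t).1 n₀ / 2 ^ k / 2 := by
      rw [pow_add]
      field_simp
    rw [e1, tau_of_mem (by positivity)]
    · ring
    · have : (A t).1 n₀ / 2 ^ k ≤ (A t).1 n₀ := div_le_self hA0' (one_le_pow₀ (by norm_num))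
      linarith
  · -- downward induction
    obtain ⟨k, hk⟩ := Nat.exists_eq_add_of_le hn
    have : ∀ k, k ≤ n₀ → (A t).1 (n₀ - k) = tau (2 ^ n₀ * (A t).1 n₀ / 2 / 2 ^ (n₀ - k)) := by
      intro k
      induction k with
      | zero =>
        intro _
        have e1 : 2 ^ n₀ * (A t).1 n₀ / 2 / 2 ^ (n₀ - 0) = (A t).1 n₀ / 2 := by
          rw [Nat.sub_zero]
          field_simp
        rw [e1, tau_of_mem (by positivity) (by linarith), Nat.sub_zero]
        ring
      | succ k ih =>
        intro hk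
        have ih' := ih (by omega)
        have e2 : n₀ - k = (n₀ - (k + 1)) + 1 := by omega
        rw [(A t).2.2 (n₀ - (k + 1)), ← e2, ih', tent_tau]
        congr 1
        rw [e2, pow_succ]
        field_simp
    have e3 : n = n₀ - k := by omega
    rw [e3]
    exact this k (by omega)

/-- Paths that start at the end point lift. -/
lemma exists_lift : ∃ a : ℝ → ℝ, ContinuousOn a (Ici 0) ∧ (∀ t, 0 ≤ t → 0 ≤ a t ∧ A t = P (a t)) ∧
    a 0 = 0 := by
  have hex : ∀ t : ℝ, 0 ≤ t → ∃ a : ℝ, 0 ≤ a ∧ A t = P a := by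
    intro t ht
    obtain ⟨n₀, hn₀⟩ := eventually_small hA hA0 t
    exact ⟨_, by have := ((A t).2.1 n₀).1; positivity, eq_P hn₀ ht le_rfl⟩
  choose! a ha0 haP using hex
  refine ⟨a, ?_, fun t ht => ⟨ha0 t ht, haP t ht⟩, ?_⟩
  · intro t ht
    have ht' : (0 : ℝ) ≤ t := ht
    obtain ⟨n₀, hn₀⟩ := eventually_small hA hA0 (t + 1)
    have heq : ∀ s, 0 ≤ s → s ≤ t + 1 → a s = 2 ^ n₀ * (A s).1 n₀ / 2 := by
      intro s hs hs1
      apply P_inj (ha0 s hs) (by have := ((A s).2.1 n₀).1; positivity)
      rw [← haP s hs]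
      exact eq_P hn₀ hs hs1
    have hcont : Continuous (fun s => 2 ^ n₀ * (A s).1 n₀ / 2) := by
      have := (coord_continuous n₀).comp hA
      exact (this.const_mul _).div_const _
    have h1 : ContinuousWithinAt (fun s => 2 ^ n₀ * (A s).1 n₀ / 2) (Ici 0) t :=
      hcont.continuousWithinAt
    refine h1.congr_of_eventuallyEq ?_ (heq t ht' (by linarith))
    have : ∀ᶠ s in 𝓝[Ici 0] t, s < t + 1 :=
      mem_nhdsWithin_of_mem_nhds (Iio_mem_nhds (by linarith))
    filter_upwards [this, self_mem_nhdsWithin] with s hs hs0 using heq s hs0 hs.le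
  · apply P_inj (ha0 0 le_rfl) le_rfl
    rw [← haP 0 le_rfl, hA0, e]

end Lift

/-! ### The end point is fixed -/

lemma exists_angles (y : K) : ∃ c : ℕ → ℝ, (∀ n, tau (c n) = y.1 n) ∧
    ∀ n, ∃ z : ℤ, 2 * c (n + 1) = c n + z := by
  have step : ∀ (n : ℕ) (c : ℝ), tau c = y.1 n →
      ∃ c' : ℝ, tau c' = y.1 (n + 1) ∧ ∃ z : ℤ, 2 * c' = c + z := by
    intro n c hc
    have h1 := y.2.2 n
    have h2 := tent_tau (c / 2)
    rw [mul_div_cancel₀ c two_ne_zero, hc, h1] at h2
    have h3 : |2 * tau (c / 2) - 1| = |2 * y.1 (n + 1) - 1| := by linarith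
    rcases abs_eq_abs.1 h3 with h4 | h4
    · exact ⟨c / 2, by linarith, 0, by push_cast; ring⟩
    · refine ⟨(c + 1) / 2, ?_, 1, by push_cast; ring⟩
      have h5 : y.1 (n + 1) = 1 - tau (c / 2) := by linarith
      rw [h5]
      -- tau (x + 1/2) = 1 - tau x
      have key : ∀ x : ℝ, tau (x + 1 / 2) = 1 - tau x := by
        intro x
        set r := x - round x with hr
        have hr1 : |r| ≤ 1 / 2 := abs_sub_round x
        have e1 : tau x = 2 * |r| := rfl
        have e2 : tau (x + 1 / 2) = tau (r + 1 / 2) := by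
          have : x + 1 / 2 = r + 1 / 2 + (round x : ℝ) := by rw [hr]; ring
          rw [this, tau_add_int]
        rw [e1, e2]
        rw [abs_le] at hr1
        rcases abs_cases r with ⟨h, h'⟩ | ⟨h, h'⟩
        · rw [h, tau_eq (z := 1) (by rw [abs_le]; constructor <;> push_cast <;> linarith),
            abs_of_nonpos (by push_cast; linarith)]
          push_cast
          ring
        · rw [h, tau_of_mem (by linarith) (by linarith)]
          ring
      have h6 : (c + 1) / 2 = c / 2 + 1 / 2 := by ring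
      rw [h6, key]
  obtain ⟨c0, hc0⟩ : ∃ c : ℝ, tau c = y.1 0 := by
    refine ⟨y.1 0 / 2, ?_⟩
    have := y.2.1 0
    rw [tau_of_mem (by linarith [this.1]) (by linarith [this.2])]
    ring
  choose f hf1 hf2 using step
  let c : (n : ℕ) → {c : ℝ // tau c = y.1 n} := fun n =>
    Nat.rec ⟨c0, hc0⟩ (fun n c => ⟨f n c.1 c.2, hf1 n c.1 c.2⟩) n
  refine ⟨fun n => (c n).1, fun n => (c n).2, fun n => ?_⟩
  exact hf2 n (c n).1 (c n).2

lemma exists_mem_Ioo {y : K} (hy : y ≠ e) : ∃ m, 0 < y.1 m ∧ y.1 m < 1 := by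
  have : ∃ m, y.1 m ≠ 0 := by
    by_contra h
    push Not at h
    apply hy
    apply Subtype.ext
    funext n
    rw [h n, e_apply]
  obtain ⟨m, hm⟩ := this
  have h1 := y.2.1 m
  have h1' := h1.1.lt_of_ne (Ne.symm hm)
  rcases h1.2.lt_or_eq with h | h
  · exact ⟨m, h1', h⟩
  · refine ⟨m + 1, ?_⟩
    have h2 := y.2.2 m
    have h3 : |2 * y.1 (m + 1) - 1| = 0 := by linarith
    rw [abs_eq_zero] at h3
    constructor <;> linarith

/-- Through every point other than the end point there is a path which is injective near it. -/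
lemma exists_path {y : K} (hy : y ≠ e) : ∃ B : ℝ → K, Continuous B ∧ B 0 = y ∧
    ∃ η : ℝ, 0 < η ∧ ∀ s t, |s| < η → |t| < η → B s = B t → s = t := by
  obtain ⟨c, hc, hc'⟩ := exists_angles y
  obtain ⟨m, hm0, hm1⟩ := exists_mem_Ioo hy
  refine ⟨line c hc', continuous_line c hc', ?_, ?_⟩
  · apply Subtype.ext
    funext n
    show tau (c n + 0 / 2 ^ n) = y.1 n
    rw [zero_div, add_zero, hc]
  · rw [← hc m] at hm0 hm1
    set r := c m - round (c m) with hr
    have hτ : tau (c m) = 2 * |r| := rfl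
    rw [hτ] at hm0 hm1
    have hr0 : 0 < |r| := by linarith
    have hr1 : |r| < 1 / 2 := by linarith
    set η := min (|r|) (1 / 2 - |r|) with hη
    have hη0 : 0 < η := lt_min hr0 (by linarith)
    refine ⟨η, hη0, ?_⟩
    intro s t hs ht hst
    have h1 : tau (c m + s / 2 ^ m) = tau (c m + t / 2 ^ m) := by
      have : (line c hc' s).1 m = (line c hc' t).1 m := by rw [hst]
      exact this
    have hpow : (1 : ℝ) ≤ 2 ^ m := one_le_pow₀ (by norm_num)
    have hval : ∀ x : ℝ, |x| < η → |x / 2 ^ m| < η ∧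
        tau (c m + x / 2 ^ m) = 2 * |r + x / 2 ^ m| := by
      intro x hx
      have hx1 : |x / 2 ^ m| < η := by
        rw [abs_div, abs_of_pos (by positivity : (0 : ℝ) < 2 ^ m)]
        exact (div_le_self (abs_nonneg x) hpow).trans_lt hx
      refine ⟨hx1, ?_⟩
      have h2 : c m + x / 2 ^ m = (r + x / 2 ^ m) + (round (c m) : ℝ) := by rw [hr]; ring
      rw [h2, tau_add_int, tau_eq (z := 0)]
      · rw [Int.cast_zero, sub_zero]
      · rw [Int.cast_zero, sub_zero]
        refine (abs_add_le _ _).trans ?_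
        have := hx1.trans_le (min_le_right _ _)
        linarith
    obtain ⟨hs1, hs2⟩ := hval s hs
    obtain ⟨ht1, ht2⟩ := hval t ht
    rw [hs2, ht2] at h1
    have h3 : |r + s / 2 ^ m| = |r + t / 2 ^ m| := by linarith
    have hs3 := hs1.trans_le (min_le_left _ _)
    have ht3 := ht1.trans_le (min_le_left _ _)
    have h4 : s / 2 ^ m = t / 2 ^ m := by
      rw [abs_lt] at hs3 ht3
      rcases abs_cases r with ⟨hr2, hr3⟩ | ⟨hr2, hr3⟩
      · rw [abs_of_pos (by linarith), abs_of_pos (by linarith)] at h3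
        linarith
      · rw [abs_of_neg (by linarith), abs_of_neg (by linarith)] at h3
        linarith
    have h5 : (2 : ℝ) ^ m ≠ 0 := by positivity
    field_simp at h4
    exact h4

/-- Every self-homeomorphism fixes the end point. -/
lemma map_e (h : K ≃ₜ K) : h e = e := by
  by_contra hne
  obtain ⟨B, hB, hB0, η, hη, hinj⟩ := exists_path hne
  have hc1 : Continuous (fun t => h.symm (B t)) := h.symm.continuous.comp hB
  have hc2 : Continuous (fun t => h.symm (B (-t))) := h.symm.continuous.comp (hB.comp continuous_neg)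
  obtain ⟨a, ha, haP, ha0⟩ := exists_lift hc1 (by simp [hB0])
  obtain ⟨b, hb, hbP, hb0⟩ := exists_lift hc2 (by simp [hB0])
  have ha1 : 0 < a (η / 2) := by
    rcases (haP (η / 2) (by linarith)).1.lt_or_eq with h' | h'
    · exact h'
    · exfalso
      have h1 := (haP (η / 2) (by linarith)).2
      rw [← h'] at h1
      have h2 := (haP 0 le_rfl).2
      rw [ha0] at h2
      have h3 : B (η / 2) = B 0 := h.symm.injective (h1.trans h2.symm)
      have := hinj (η / 2) 0 (by rw [abs_of_pos (by linarith)]; linarith) (by simpa using hη) h3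
      linarith
  have hb1 : 0 < b (η / 2) := by
    rcases (hbP (η / 2) (by linarith)).1.lt_or_eq with h' | h'
    · exact h'
    · exfalso
      have h1 := (hbP (η / 2) (by linarith)).2
      rw [← h'] at h1
      have h2 := (hbP 0 le_rfl).2
      rw [hb0] at h2
      have h3 : B (-(η / 2)) = B (-0) := h.symm.injective (h1.trans h2.symm)
      have := hinj (-(η / 2)) (-0) (by rw [abs_neg, abs_of_pos (by linarith)]; linarith)
        (by simpa using hη) h3
      linarith
  set v := min (a (η / 2)) (b (η / 2)) with hv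
  have hv0 : 0 < v := lt_min ha1 hb1
  obtain ⟨s, hs, hs'⟩ : v ∈ a '' Icc 0 (η / 2) := by
    apply intermediate_value_Icc (by linarith) (ha.mono Icc_subset_Ici_self)
    rw [ha0]
    exact ⟨hv0.le, min_le_left _ _⟩
  obtain ⟨t, ht, ht'⟩ : v ∈ b '' Icc 0 (η / 2) := by
    apply intermediate_value_Icc (by linarith) (hb.mono Icc_subset_Ici_self)
    rw [hb0]
    exact ⟨hv0.le, min_le_right _ _⟩
  have h1 := (haP s hs.1).2
  have h2 := (hbP t ht.1).2
  rw [hs'] at h1
  rw [ht'] at h2
  have h3 : B s = B (-t) := h.symm.injective (h1.trans h2.symm)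
  have h4 := hinj s (-t) (by rw [abs_of_nonneg hs.1]; linarith [hs.2])
    (by rw [abs_neg, abs_of_nonneg ht.1]; linarith [ht.2]) h3
  have h5 : s = 0 := by linarith [hs.1, ht.1]
  rw [h5, ha0] at hs'
  linarith

/-! ### The lift of a homeomorphism to the line -/

/-- `G` is a lift of `h` to the line. -/
structure IsLift (h : K ≃ₜ K) (G : ℝ → ℝ) : Prop where
  cont : Continuous G
  odd : ∀ t, G (-t) = - G t
  mono : StrictMono G
  map : ∀ t, h (P t) = P (G t)

lemma exists_isLift (h : K ≃ₜ K) : ∃ G, IsLift h G := by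
  have hc : Continuous (fun t => h (P t)) := h.continuous.comp continuous_P
  obtain ⟨a, ha, haP, ha0⟩ := exists_lift hc (by show h (P 0) = e; exact map_e h)
  have hinj : ∀ s t, 0 ≤ s → 0 ≤ t → a s = a t → s = t := by
    intro s t hs ht hst
    apply P_inj hs ht
    apply h.injective
    rw [(haP s hs).2, (haP t ht).2, hst]
  have hpos : ∀ t, 0 < t → 0 < a t := by
    intro t ht
    rcases (haP t ht.le).1.lt_or_eq with h' | h'
    · exact h'
    · have := hinj 0 t le_rfl ht.le (by rw [ha0]; exact h')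
      linarith
  let G : ℝ → ℝ := fun t => if 0 ≤ t then a t else - a (-t)
  have hGpos : ∀ t, 0 ≤ t → G t = a t := fun t ht => if_pos ht
  have hGneg : ∀ t, t ≤ 0 → G t = - a (-t) := by
    intro t ht
    rcases ht.lt_or_eq with h' | h'
    · exact if_neg (not_le.2 h')
    · rw [h', hGpos 0 le_rfl, neg_zero, ha0, neg_zero]
  have hcont : Continuous G := by
    have h1 : ContinuousOn G (Ici 0) := ha.congr fun t ht => hGpos t ht
    have h2 : ContinuousOn G (Iic 0) := by
      have h3 : ContinuousOn (fun t => - a (-t)) (Iic 0) :=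
        (ha.comp continuous_neg.continuousOn fun t ht => by
          rw [mem_Ici]
          rw [mem_Iic] at ht
          linarith).neg
      exact h3.congr fun t ht => hGneg t ht
    rw [← continuousOn_univ, ← Iic_union_Ici (a := (0 : ℝ))]
    exact h2.union_of_isClosed h1 isClosed_Iic isClosed_Ici
  have hodd : ∀ t, G (-t) = - G t := by
    intro t
    rcases le_total 0 t with h' | h'
    · rw [hGneg (-t) (by linarith), hGpos t h', neg_neg]
    · rw [hGpos (-t) (by linarith), hGneg t h', neg_neg]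
  have hGinj : Function.Injective G := by
    intro s t hst
    rcases le_total 0 s with hs | hs <;> rcases le_total 0 t with ht | ht
    · rw [hGpos s hs, hGpos t ht] at hst
      exact hinj s t hs ht hst
    · rw [hGpos s hs, hGneg t ht] at hst
      have h1 := (haP s hs).1
      have h2 := (haP (-t) (by linarith)).1
      have h3 : a s = 0 := by linarith
      have h4 : a (-t) = 0 := by linarith
      have h5 := hinj s 0 hs le_rfl (by rw [h3, ha0])
      have h6 := hinj (-t) 0 (by linarith) le_rfl (by rw [h4, ha0])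
      linarith
    · rw [hGneg s hs, hGpos t ht] at hst
      have h1 := (haP t ht).1
      have h2 := (haP (-s) (by linarith)).1
      have h3 : a t = 0 := by linarith
      have h4 : a (-s) = 0 := by linarith
      have h5 := hinj t 0 ht le_rfl (by rw [h3, ha0])
      have h6 := hinj (-s) 0 (by linarith) le_rfl (by rw [h4, ha0])
      linarith
    · rw [hGneg s hs, hGneg t ht] at hst
      have := hinj (-s) (-t) (by linarith) (by linarith) (by linarith)
      linarith
  refine ⟨G, hcont, hodd, ?_, ?_⟩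
  · rcases hcont.strictMono_of_inj hGinj with h' | h'
    · exact h'
    · exfalso
      have h1 := h' (zero_lt_one (α := ℝ))
      rw [hGpos 0 le_rfl, hGpos 1 zero_le_one, ha0] at h1
      have := hpos 1 one_pos
      linarith
  · intro t
    rcases le_total 0 t with h' | h'
    · rw [hGpos t h']
      exact (haP t h').2
    · rw [hGneg t h', P_neg, ← P_neg t]
      exact (haP (-t) (by linarith)).2

namespace IsLift

variable {h : K ≃ₜ K} {G : ℝ → ℝ}

lemma zero (hG : IsLift h G) : G 0 = 0 := by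
  have := hG.odd 0
  rw [neg_zero] at this
  linarith

lemma nonneg (hG : IsLift h G) {t : ℝ} (ht : 0 ≤ t) : 0 ≤ G t := by
  rw [← hG.zero]
  exact hG.mono.monotone ht

lemma inv {G' : ℝ → ℝ} (hG : IsLift h G) (hG' : IsLift h.symm G') (t : ℝ) : G' (G t) = t := by
  have key : ∀ t, 0 ≤ t → G' (G t) = t := by
    intro t ht
    apply P_inj (hG'.nonneg (hG.nonneg ht)) ht
    rw [← hG'.map, ← hG.map, h.symm_apply_apply]
  rcases le_total 0 t with ht | ht
  · exact key t ht
  · have := key (-t) (by linarith)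
    rw [hG.odd, hG'.odd] at this
    linarith

end IsLift

/-! ### Compactness of `K` and almost periodicity -/

instance : CompactSpace K := by
  refine (isCompact_iff_compactSpace (s := {x : ℕ → ℝ | (∀ n, x n ∈ Set.Icc (0:ℝ) 1) ∧
    ∀ n, x n = 1 - |2 * x (n+1) - 1|})).1 ?_
  have h1 : IsCompact (Set.pi univ fun _ : ℕ => Set.Icc (0:ℝ) 1) :=
    isCompact_univ_pi fun _ => isCompact_Icc
  refine h1.of_isClosed_subset ?_ (fun x hx n _ => hx.1 n)
  have h2 : {x : ℕ → ℝ | (∀ n, x n ∈ Set.Icc (0:ℝ) 1) ∧ ∀ n, x n = 1 - |2 * x (n+1) - 1|} =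
      (⋂ n, {x : ℕ → ℝ | x n ∈ Set.Icc (0:ℝ) 1}) ∩
      (⋂ n, {x : ℕ → ℝ | x n = 1 - |2 * x (n+1) - 1|}) := by
    ext x
    simp
  rw [h2]
  refine (isClosed_iInter fun n => ?_).inter (isClosed_iInter fun n => ?_)
  · exact isClosed_Icc.preimage (continuous_apply n)
  · exact isClosed_eq (continuous_apply n) (by fun_prop)

lemma unif (h : K ≃ₜ K) {η : ℝ} (hη : 0 < η) :
    ∃ M : ℕ, ∀ y y' : K, (∀ n ≤ M, y.1 n = y'.1 n) → |(h y).1 0 - (h y').1 0| < η := by
  by_contra hcon
  push Not at hcon
  let E : ℕ → Set (K × K) := fun M =>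
    {p | (∀ n ≤ M, p.1.1 n = p.2.1 n) ∧ η ≤ |(h p.1).1 0 - (h p.2).1 0|}
  have hclosed : ∀ M, IsClosed (E M) := by
    intro M
    have h2 : E M = (⋂ n, ⋂ (_ : n ≤ M), {p : K × K | p.1.1 n = p.2.1 n}) ∩
        {p | η ≤ |(h p.1).1 0 - (h p.2).1 0|} := by
      ext p
      simp [E]
    rw [h2]
    refine (isClosed_iInter fun n => isClosed_iInter fun _ => ?_).inter ?_
    · exact isClosed_eq ((coord_continuous n).comp continuous_fst)
        ((coord_continuous n).comp continuous_snd)
    · apply isClosed_le continuous_const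
      exact (((coord_continuous 0).comp (h.continuous.comp continuous_fst)).sub
        ((coord_continuous 0).comp (h.continuous.comp continuous_snd))).abs
  have hne : (⋂ M, E M).Nonempty := by
    apply IsCompact.nonempty_iInter_of_sequence_nonempty_isCompact_isClosed E
    · intro M p hp
      exact ⟨fun n hn => hp.1 n (by omega), hp.2⟩
    · intro M
      obtain ⟨y, y', h1, h2⟩ := hcon M
      exact ⟨(y, y'), h1, h2⟩
    · exact (hclosed 0).isCompact
    · exact hclosed
  obtain ⟨p, hp⟩ := hne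
  rw [mem_iInter] at hp
  have h1 : p.1 = p.2 := by
    apply Subtype.ext
    funext n
    exact (hp n).1 n le_rfl
  have h2 := (hp 0).2
  rw [h1, sub_self, abs_zero] at h2
  linarith

namespace IsLift

variable {h : K ≃ₜ K} {G : ℝ → ℝ}

lemma surj (hG : IsLift h G) : Function.Surjective G := by
  obtain ⟨G', hG'⟩ := exists_isLift h.symm
  intro x
  refine ⟨G' x, ?_⟩
  have := IsLift.inv hG' (G' := G) (by simpa using hG) x
  exact this

/-- The lift is almost periodic, modulo the integers. -/
lemma almost_periodic (hG : IsLift h G) {ε : ℝ} (hε : 0 < ε) (hε1 : ε ≤ 1 / 4) :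
    ∃ M : ℕ, ∀ (u : ℝ) (j : ℤ), ∃ z : ℤ, |G (u + 2 ^ M * j) - G u - z| < 3 * ε := by
  obtain ⟨M, hM⟩ := unif h (η := 2 * ε) (by linarith)
  refine ⟨M, fun u j => ?_⟩
  set d : ℝ := 2 ^ M * j with hd
  -- the dichotomy
  have hdich : ∀ u : ℝ, (∃ z : ℤ, |G (u + d) - G u - z| < ε) ∨
      (∃ z : ℤ, |G (u + d) + G u - z| < ε) := by
    intro u
    apply tau_close
    have h1 := hM (P (u + d)) (P u) (by
      intro n hn
      rw [P_apply, P_apply]
      have : (u + d) / 2 ^ n = u / 2 ^ n + ((2 ^ (M - n) * j : ℤ) : ℝ) := by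
        rw [hd, add_div]
        congr 1
        push_cast
        rw [div_eq_iff (by positivity)]
        have : (2 : ℝ) ^ M = 2 ^ (M - n) * 2 ^ n := by rw [← pow_add]; congr 1; omega
        rw [this]
        ring
      rw [this, tau_add_int])
    rw [hG.map, hG.map, P_apply, P_apply, pow_zero, div_one, div_one] at h1
    exact h1
  rcases hdich u with ⟨z, hz⟩ | ⟨z, hz⟩
  · exact ⟨z, by linarith⟩
  · -- b is strictly increasing; go left until b = z - ε
    set b : ℝ → ℝ := fun x => G (x + d) + G x with hb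
    have hbmono : StrictMono b := by
      intro x y hxy
      have h1 := hG.mono hxy
      have h2 : G (x + d) < G (y + d) := hG.mono (by linarith)
      simp only [hb]
      linarith
    have hbcont : Continuous b := by
      have := hG.cont
      fun_prop
    have hbu : z - ε < b u := by
      have := (abs_lt.1 hz).1
      simp only [hb]
      linarith
    obtain ⟨v₀, hv₀⟩ := hG.surj ((z - ε) / 2)
    set l' := min v₀ (v₀ - d) with hl'
    have hl1 : G l' ≤ (z - ε) / 2 := by
      rw [← hv₀]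
      exact hG.mono.monotone (min_le_left _ _)
    have hl2 : G (l' + d) ≤ (z - ε) / 2 := by
      rw [← hv₀]
      apply hG.mono.monotone
      have : l' ≤ v₀ - d := min_le_right _ _
      linarith
    have hbl : b l' ≤ z - ε := by
      simp only [hb]
      linarith
    have hlu : l' ≤ u := by
      by_contra hcon
      push Not at hcon
      have := hbmono hcon
      linarith
    obtain ⟨l, hl, hl3⟩ : (z - ε) ∈ b '' Icc l' u := by
      apply intermediate_value_Icc hlu hbcont.continuousOn
      exact ⟨hbl, hbu.le⟩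
    have hbl' : G (l + d) + G l = z - ε := hl3
    rcases hdich l with ⟨z', hz'⟩ | ⟨z', hz'⟩
    · refine ⟨z', ?_⟩
      have h1 : G l ≤ G u := hG.mono.monotone hl.2
      have h2 : G (l + d) ≤ G (u + d) := hG.mono.monotone (by linarith [hl.2])
      rw [abs_lt] at hz hz' ⊢
      constructor <;> linarith
    · exfalso
      rw [hbl', abs_lt] at hz'
      have h1 : (0 : ℝ) < ((z - z' : ℤ) : ℝ) := by push_cast; linarith
      have h2 : ((z - z' : ℤ) : ℝ) < ((1 : ℤ) : ℝ) := by push_cast; linarith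
      have h3 : (0 : ℤ) < z - z' := by exact_mod_cast h1
      have h4 : z - z' < 1 := by exact_mod_cast h2
      omega

lemma int_close {x : ℝ} {z z' : ℤ} (h1 : |x - z| < 1 / 4) (h2 : |x - z'| < 1 / 2) : z = z' := by
  rw [abs_lt] at h1 h2
  have h3 : ((z - z' : ℤ) : ℝ) < ((1 : ℤ) : ℝ) := by push_cast; linarith
  have h4 : ((-1 : ℤ) : ℝ) < ((z - z' : ℤ) : ℝ) := by push_cast; linarith
  have h5 : z - z' < 1 := by exact_mod_cast h3
  have h6 : -1 < z - z' := by exact_mod_cast h4
  omega

/-- A continuous function with values near the integers stays near one integer. -/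
lemma near_const {D : ℝ → ℝ} (hD : Continuous D) (h : ∀ u, ∃ z : ℤ, |D u - z| < 1 / 4) :
    ∃ z : ℤ, ∀ u, |D u - z| < 1 / 4 := by
  obtain ⟨z, hz⟩ := h 0
  refine ⟨z, fun u => ?_⟩
  obtain ⟨z', hz'⟩ := h u
  suffices z' = z by rw [← this]; exact hz'
  by_contra hne
  have hvalue : ∀ w : ℤ, ∀ x, D x ≠ w + 1 / 2 := by
    intro w x hx
    obtain ⟨z'', hz''⟩ := h x
    rw [hx, abs_lt] at hz''
    have h1 : ((w - z'' : ℤ) : ℝ) < ((0 : ℤ) : ℝ) := by push_cast; linarith
    have h2 : ((-1 : ℤ) : ℝ) < ((w - z'' : ℤ) : ℝ) := by push_cast; linarith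
    have h3 : w - z'' < 0 := by exact_mod_cast h1
    have h4 : -1 < w - z'' := by exact_mod_cast h2
    omega
  rw [abs_lt] at hz hz'
  rcases lt_or_gt_of_ne hne with hlt | hgt
  · have h1 : (z' : ℝ) ≤ z - 1 := by
      have : z' ≤ z - 1 := by omega
      exact_mod_cast this
    obtain ⟨x, _, hx⟩ : ((z - 1 : ℤ) : ℝ) + 1 / 2 ∈ D '' (uIcc 0 u) := by
      apply intermediate_value_uIcc hD.continuousOn
      rw [mem_uIcc]
      right
      push_cast
      constructor <;> linarith
    exact hvalue _ x hx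
  · have h1 : (z : ℝ) + 1 ≤ z' := by
      have : z + 1 ≤ z' := by omega
      exact_mod_cast this
    obtain ⟨x, _, hx⟩ : (z : ℝ) + 1 / 2 ∈ D '' (uIcc 0 u) := by
      apply intermediate_value_uIcc hD.continuousOn
      rw [mem_uIcc]
      left
      constructor <;> linarith
    exact hvalue _ x hx

/-- The basic period. -/
lemma period (hG : IsLift h G) : ∃ (M : ℕ) (d : ℤ), ∀ (u : ℝ) (j : ℕ),
    |G (u + 2 ^ M * j) - G u - j * d| < 1 / 4 := by
  obtain ⟨M, hM⟩ := hG.almost_periodic (ε := 1 / 12) (by norm_num) (by norm_num)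
  have hM' : ∀ (u : ℝ) (j : ℤ), ∃ z : ℤ, |G (u + 2 ^ M * j) - G u - z| < 1 / 4 := by
    intro u j
    obtain ⟨z, hz⟩ := hM u j
    exact ⟨z, by linarith⟩
  have hc := hG.cont
  obtain ⟨d, hd⟩ := near_const (D := fun u => G (u + 2 ^ M * (1 : ℤ)) - G u) (by fun_prop)
    (fun u => hM' u 1)
  refine ⟨M, d, fun u j => ?_⟩
  induction j with
  | zero => simp
  | succ j ih =>
    obtain ⟨z, hz⟩ := hM' u ((j : ℤ) + 1)
    have h1 := hd (u + 2 ^ M * j)
    have e1 : u + 2 ^ M * (j : ℝ) + 2 ^ M * ((1 : ℤ) : ℝ) = u + 2 ^ M * (((j : ℤ) + 1 : ℤ) : ℝ) := by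
      push_cast; ring
    rw [e1] at h1
    have h2 : |G (u + 2 ^ M * (((j : ℤ) + 1 : ℤ) : ℝ)) - G u - (((j + 1) * d : ℤ) : ℝ)| < 1 / 2 := by
      rw [abs_lt] at ih h1 ⊢
      push_cast at ih h1 ⊢
      constructor <;> linarith
    have h3 := int_close hz h2
    rw [h3] at hz
    push_cast at hz ⊢
    exact hz

/-- Linear growth. -/
lemma growth (hG : IsLift h G) : ∃ (M : ℕ) (d : ℤ) (B : ℝ),
    (∀ (u : ℝ) (j : ℕ), |G (u + 2 ^ M * j) - G u - j * d| < 1 / 4) ∧
    ∀ u : ℝ, |G u - (d / 2 ^ M) * u| ≤ B := by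
  obtain ⟨M, d, hd⟩ := hG.period
  have hp : (0 : ℝ) < 2 ^ M := by positivity
  refine ⟨M, d, G (2 ^ M) + 1 / 4 + |(d : ℝ)|, hd, ?_⟩
  have key : ∀ u : ℝ, 0 ≤ u → |G u - (d / 2 ^ M) * u| ≤ G (2 ^ M) + 1 / 4 + |(d : ℝ)| := by
    intro u hu
    set j := ⌊u / 2 ^ M⌋₊ with hj
    set v := u - 2 ^ M * j with hv
    have h1 : (j : ℝ) ≤ u / 2 ^ M := Nat.floor_le (by positivity)
    have h2 : u / 2 ^ M < j + 1 := Nat.lt_floor_add_one _
    have hv0 : 0 ≤ v := by
      rw [le_div_iff₀ hp] at h1
      linarith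
    have hv1 : v < 2 ^ M := by
      rw [div_lt_iff₀ hp] at h2
      linarith
    have h3 := hd v j
    have e1 : v + 2 ^ M * j = u := by rw [hv]; ring
    rw [e1] at h3
    have h4 : 0 ≤ G v := hG.nonneg hv0
    have h5 : G v ≤ G (2 ^ M) := hG.mono.monotone hv1.le
    have e2 : (d / 2 ^ M) * u = j * d + (v / 2 ^ M) * d := by
      rw [← e1]
      field_simp
      ring
    have h6 : |(v / 2 ^ M) * d| ≤ |(d : ℝ)| := by
      rw [abs_mul, abs_of_nonneg (by positivity)]
      have : v / 2 ^ M ≤ 1 := by rw [div_le_one hp]; exact hv1.le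
      nlinarith [abs_nonneg (d : ℝ)]
    rw [e2]
    rw [abs_lt] at h3
    rw [abs_le] at h6 ⊢
    constructor <;> linarith
  intro u
  rcases le_total 0 u with hu | hu
  · exact key u hu
  · have := key (-u) (by linarith)
    rw [hG.odd] at this
    rw [← abs_neg]
    convert this using 2
    ring

/-- The growth rate is a power of two, so it is `1`, at least `2`, or the inverse has this property. -/
lemma rate (hG : IsLift h G) {G' : ℝ → ℝ} (hG' : IsLift h.symm G') :
    ∃ (M : ℕ) (a : ℕ) (B B' : ℝ),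
      (∀ (u : ℝ) (j : ℕ), |G (u + 2 ^ M * j) - G u - j * 2 ^ a| < 1 / 4) ∧
      (∀ u : ℝ, |G u - (2 ^ a / 2 ^ M) * u| ≤ B) ∧
      (∀ u : ℝ, |G' u - (2 ^ M / 2 ^ a) * u| ≤ B') := by
  obtain ⟨M, d, B, h1, h2⟩ := hG.growth
  obtain ⟨M', d', B', h1', h2'⟩ := hG'.growth
  have hp : (0 : ℝ) < 2 ^ M := by positivity
  have hp' : (0 : ℝ) < 2 ^ M' := by positivity
  -- d d' = 2 ^ (M + M')
  have hprod : (d : ℝ) / 2 ^ M * (d' / 2 ^ M') = 1 := by
    by_contra hne
    set μ : ℝ := 1 - (d' / 2 ^ M') * (d / 2 ^ M) with hμ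
    have hμ0 : μ ≠ 0 := by
      intro h0
      apply hne
      linarith
    set C : ℝ := B' + |(d' : ℝ) / 2 ^ M'| * B with hC
    have hb : ∀ u : ℝ, |μ * u| ≤ C := by
      intro u
      have e1 := h2' (G u)
      rw [hG.inv hG'] at e1
      have e2 := h2 u
      have e3 : μ * u = (u - d' / 2 ^ M' * G u) + (d' / 2 ^ M') * (G u - d / 2 ^ M * u) := by
        rw [hμ]; ring
      rw [e3]
      refine (abs_add_le _ _).trans ?_
      rw [abs_mul]
      exact add_le_add e1 (mul_le_mul_of_nonneg_left e2 (abs_nonneg _))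
    have hC0 : 0 ≤ C := (abs_nonneg _).trans (hb 0)
    have := hb ((C + 1) / μ)
    rw [mul_div_cancel₀ _ hμ0, abs_of_pos (by linarith)] at this
    linarith
  have hprod' : d * d' = 2 ^ (M + M') := by
    have : (d : ℝ) * d' = 2 ^ (M + M') := by
      rw [pow_add]
      field_simp at hprod
      linarith
    exact_mod_cast this
  have hd0 : 0 ≤ d := by
    by_contra hneg
    push Not at hneg
    have hd1 : (d : ℝ) ≤ -1 := by
      have : d ≤ -1 := by omega
      exact_mod_cast this
    have h3 := h1 0 1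
    have h4 : 0 ≤ G (0 + 2 ^ M * (1 : ℕ)) := hG.nonneg (by positivity)
    rw [hG.zero, abs_lt] at h3
    push_cast at h3 h4
    linarith
  obtain ⟨n, rfl⟩ : ∃ n : ℕ, d = n := ⟨d.toNat, (Int.toNat_of_nonneg hd0).symm⟩
  have hdvd : n ∣ 2 ^ (M + M') := by
    have : (n : ℤ) ∣ ((2 ^ (M + M') : ℕ) : ℤ) := ⟨d', by push_cast; exact hprod'.symm⟩
    exact_mod_cast this
  obtain ⟨a, -, rfl⟩ := (Nat.dvd_prime_pow Nat.prime_two).1 hdvd
  refine ⟨M, a, B, B', ?_, ?_, ?_⟩
  · intro u j
    have := h1 u j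
    push_cast at this
    exact this
  · intro u
    have := h2 u
    push_cast at this
    exact this
  · intro u
    have := h2' u
    push_cast at hprod
    have e1 : (d' : ℝ) / 2 ^ M' = 2 ^ M / 2 ^ a := by
      field_simp at hprod ⊢
      linarith
    rw [e1] at this
    exact this

/-- Expanding case: there is a fixed point other than the end point. -/
lemma expanding (hG : IsLift h G) {k : ℕ} (hk : 1 ≤ k) {B : ℝ}
    (hB : ∀ u : ℝ, |G u - 2 ^ k * u| ≤ B) : ∃ y : K, y ≠ e ∧ h y = y := by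
  set q : ℕ := 2 ^ k + 1 with hq
  have hq0 : (0 : ℝ) < q := by positivity
  have hB0 : 0 ≤ B := (abs_nonneg _).trans (hB 0)
  obtain ⟨n, hn⟩ := pow_unbounded_of_one_lt (2 * B) (one_lt_two (α := ℝ))
  have hn0 : (0 : ℝ) < 2 ^ n := by positivity
  -- points that are fixed up to level N and stay away from the end point
  have hpt : ∀ N : ℕ, ∃ y : K, (∀ i ≤ N, (h y).1 i = y.1 i) ∧ 1 / (q : ℝ) ≤ y.1 n := by
    intro N₀
    set N := max N₀ n with hN
    have hbc : Continuous (fun u => G u + u) := by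
      have := hG.cont
      fun_prop
    have hex : ∃ u, G u + u = 2 ^ N := by
      obtain ⟨v, hv⟩ := hG.surj (2 ^ N)
      have hv0 : 0 ≤ v := by
        by_contra hneg
        push Not at hneg
        have := hG.mono hneg
        rw [hG.zero, hv] at this
        have : (0 : ℝ) < 2 ^ N := by positivity
        linarith
      obtain ⟨u, -, hu⟩ : (2 : ℝ) ^ N ∈ (fun u => G u + u) '' Icc 0 v := by
        apply intermediate_value_Icc hv0 hbc.continuousOn
        simp only [hG.zero, hv]
        constructor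
        · have : (0 : ℝ) < 2 ^ N := by positivity
          linarith
        · linarith
      exact ⟨u, hu⟩
    obtain ⟨u, hu⟩ := hex
    refine ⟨P u, ?_, ?_⟩
    · intro i hi
      rw [hG.map, P_apply, P_apply]
      have e1 : G u / 2 ^ i = -(u / 2 ^ i) + ((2 ^ (N - i) : ℤ) : ℝ) := by
        have : G u = 2 ^ N - u := by linarith
        rw [this]
        have h2 : (2 : ℝ) ^ N = 2 ^ (N - i) * 2 ^ i := by
          rw [← pow_add]; congr 1; omega
        push_cast
        rw [h2]
        field_simp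
        ring
      rw [e1, tau_add_int, tau_neg]
    · rw [P_apply]
      set x := u / 2 ^ n with hx
      set z := round x with hz
      have hqx : (q : ℝ) * u = 2 ^ N - (G u - 2 ^ k * u) := by
        rw [hq]; push_cast; linarith
      have h3 : (q : ℝ) * x = 2 ^ (N - n) - (G u - 2 ^ k * u) / 2 ^ n := by
        have h2 : (2 : ℝ) ^ N = 2 ^ (N - n) * 2 ^ n := by
          rw [← pow_add]; congr 1; omega
        rw [hx, ← mul_div_assoc, hqx, h2]
        field_simp
      have h4 : (1 : ℝ) ≤ |(2 : ℝ) ^ (N - n) - q * z| := by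
        have hne : (2 : ℤ) ^ (N - n) - q * z ≠ 0 := by
          intro h0
          have h5 : (q : ℤ) ∣ ((2 ^ (N - n) : ℕ) : ℤ) := ⟨z, by push_cast; linarith⟩
          have h6 : q ∣ 2 ^ (N - n) := by exact_mod_cast h5
          obtain ⟨b, -, hb⟩ := (Nat.dvd_prime_pow Nat.prime_two).1 h6
          have h7 : 2 ∣ 2 ^ k := dvd_pow_self 2 (by omega)
          have h8 : 2 ≤ 2 ^ k := Nat.le_of_dvd (by positivity) h7
          have h9 : b ≠ 0 := by
            rintro rfl
            rw [pow_zero] at hb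
            omega
          have h10 : 2 ∣ 2 ^ b := dvd_pow_self 2 h9
          omega
        have := Int.one_le_abs hne
        exact_mod_cast this
      have h5 : |(G u - 2 ^ k * u) / 2 ^ n| ≤ 1 / 2 := by
        rw [abs_div, abs_of_pos hn0, div_le_iff₀ hn0]
        have := hB u
        linarith
      have h6 : (1 : ℝ) / 2 ≤ |q * (x - z)| := by
        have e2 : (q : ℝ) * (x - z) = ((2 : ℝ) ^ (N - n) - q * z) - (G u - 2 ^ k * u) / 2 ^ n := by
          rw [mul_sub, h3]; ring
        rw [e2]
        have := abs_sub_abs_le_abs_sub ((2 : ℝ) ^ (N - n) - q * z) ((G u - 2 ^ k * u) / 2 ^ n)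
        linarith
      rw [abs_mul, abs_of_pos hq0] at h6
      show 1 / (q : ℝ) ≤ 2 * |x - z|
      rw [div_le_iff₀ hq0]
      linarith
  -- compactness
  let E : ℕ → Set K := fun N => {y | (∀ i ≤ N, (h y).1 i = y.1 i) ∧ 1 / (q : ℝ) ≤ y.1 n}
  have hclosed : ∀ N, IsClosed (E N) := by
    intro N
    have h2 : E N = (⋂ i, ⋂ (_ : i ≤ N), {y : K | (h y).1 i = y.1 i}) ∩
        {y | 1 / (q : ℝ) ≤ y.1 n} := by
      ext y
      simp [E]
    rw [h2]
    refine (isClosed_iInter fun i => isClosed_iInter fun _ => ?_).inter ?_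
    · exact isClosed_eq ((coord_continuous i).comp h.continuous) (coord_continuous i)
    · exact isClosed_le continuous_const (coord_continuous n)
  have hne : (⋂ N, E N).Nonempty := by
    apply IsCompact.nonempty_iInter_of_sequence_nonempty_isCompact_isClosed E
    · intro N y hy
      exact ⟨fun i hi => hy.1 i (by omega), hy.2⟩
    · exact hpt
    · exact (hclosed 0).isCompact
    · exact hclosed
  obtain ⟨y, hy⟩ := hne
  rw [mem_iInter] at hy
  refine ⟨y, ?_, ?_⟩
  · intro hye
    have h1 := (hy 0).2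
    rw [hye, e_apply] at h1
    have : (0 : ℝ) < 1 / q := by positivity
    linarith
  · apply Subtype.ext
    funext i
    exact (hy i).1 i le_rfl

/-- Isotopic to the identity: there is a fixed point on the ray. -/
lemma neutral (hG : IsLift h G) {M : ℕ}
    (hM : ∀ (u : ℝ) (j : ℕ), |G (u + 2 ^ M * j) - G u - j * 2 ^ M| < 1 / 4) :
    ∃ y : K, y ≠ e ∧ h y = y := by
  suffices ∃ u, 0 < u ∧ G u = u by
    obtain ⟨u, hu, hGu⟩ := this
    refine ⟨P u, ?_, by rw [hG.map, hGu]⟩
    intro h0
    have := P_inj hu.le le_rfl h0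
    linarith
  by_contra hcon
  push Not at hcon
  have hφc : Continuous (fun u => G u - u) := by
    have := hG.cont
    fun_prop
  -- almost periodicity of φ
  have hap : ∀ ε : ℝ, 0 < ε → ε ≤ 1 / 4 → ∃ u : ℝ, u < 0 ∧ |(G 1 - 1) - (G u - u)| < 3 * ε := by
    intro ε hε hε1
    obtain ⟨M₁, hM₁⟩ := hG.almost_periodic (ε := ε / 3) (by linarith) (by linarith)
    set L := M + M₁ + 1 with hL
    refine ⟨1 - 2 ^ L, ?_, ?_⟩
    · have : (1 : ℝ) < 2 ^ L := one_lt_pow₀ (by norm_num) (by omega)
      linarith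
    · obtain ⟨z, hz⟩ := hM₁ (1 - 2 ^ L) (2 ^ (L - M₁))
      have e1 : (1 : ℝ) - 2 ^ L + 2 ^ M₁ * ((2 ^ (L - M₁) : ℤ) : ℝ) = 1 := by
        push_cast
        rw [← pow_add, show M₁ + (L - M₁) = L by omega]
        ring
      rw [e1] at hz
      have h1 := hM (1 - 2 ^ L) (2 ^ (L - M))
      have e2 : (1 : ℝ) - 2 ^ L + 2 ^ M * ((2 ^ (L - M) : ℕ) : ℝ) = 1 := by
        push_cast
        rw [← pow_add, show M + (L - M) = L by omega]
        ring
      have e3 : ((2 ^ (L - M) : ℕ) : ℝ) * 2 ^ M = 2 ^ L := by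
        push_cast
        rw [← pow_add, show L - M + M = L by omega]
      rw [e2, e3] at h1
      have h2 : z = 2 ^ L := by
        symm
        apply int_close (x := G 1 - G (1 - 2 ^ L))
        · push_cast; exact h1
        · linarith
      rw [h2] at hz
      push_cast at hz
      rw [abs_lt] at hz ⊢
      constructor <;> linarith
  have h1 := hcon 1 one_pos
  rcases lt_or_gt_of_ne h1 with hlt | hgt
  · -- G u < u for all u > 0
    have hall : ∀ u, 0 < u → G u < u := by
      intro u hu
      by_contra hge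
      push Not at hge
      obtain ⟨x, hx, hx'⟩ : (0 : ℝ) ∈ (fun u => G u - u) '' (uIcc 1 u) := by
        apply intermediate_value_uIcc hφc.continuousOn
        rw [mem_uIcc]
        left
        constructor <;> linarith
      have hx0 : 0 < x := by
        rw [mem_uIcc] at hx
        rcases hx with hx | hx <;> linarith
      exact hcon x hx0 (by simp only at hx'; linarith)
    obtain ⟨u, hu, hu'⟩ := hap (min (1 / 4) ((1 - G 1) / 3)) (by
      apply lt_min (by norm_num); linarith) (min_le_left _ _)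
    have h2 := hall (-u) (by linarith)
    rw [hG.odd] at h2
    have h3 : min (1 / 4) ((1 - G 1) / 3) ≤ (1 - G 1) / 3 := min_le_right _ _
    rw [abs_lt] at hu'
    linarith
  · have hall : ∀ u, 0 < u → u < G u := by
      intro u hu
      by_contra hge
      push Not at hge
      obtain ⟨x, hx, hx'⟩ : (0 : ℝ) ∈ (fun u => G u - u) '' (uIcc 1 u) := by
        apply intermediate_value_uIcc hφc.continuousOn
        rw [mem_uIcc]
        right
        constructor <;> linarith
      have hx0 : 0 < x := by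
        rw [mem_uIcc] at hx
        rcases hx with hx | hx <;> linarith
      exact hcon x hx0 (by simp only at hx'; linarith)
    obtain ⟨u, hu, hu'⟩ := hap (min (1 / 4) ((G 1 - 1) / 3)) (by
      apply lt_min (by norm_num); linarith) (min_le_left _ _)
    have h2 := hall (-u) (by linarith)
    rw [hG.odd] at h2
    have h3 : min (1 / 4) ((G 1 - 1) / 3) ≤ (G 1 - 1) / 3 := min_le_right _ _
    rw [abs_lt] at hu'
    linarith

end IsLift

/-- Every self-homeomorphism of the Knaster continuum fixes the end point and at least one other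
point. -/
theorem exists_second (h : K ≃ₜ K) : ∃ y : K, y ≠ e ∧ h y = y := by
  obtain ⟨G, hG⟩ := exists_isLift h
  obtain ⟨G', hG'⟩ := exists_isLift h.symm
  obtain ⟨M, a, B, B', h1, h2, h3⟩ := hG.rate hG'
  rcases lt_trichotomy a M with hlt | heq | hgt
  · -- the inverse is expanding
    obtain ⟨y, hy, hy'⟩ := hG'.expanding (k := M - a) (by omega) (B := B') (by
      intro u
      have := h3 u
      have e1 : (2 : ℝ) ^ M / 2 ^ a = 2 ^ (M - a) := by
        rw [div_eq_iff (by positivity), ← pow_add]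
        congr 1
        omega
      rwa [e1] at this)
    refine ⟨y, hy, ?_⟩
    have : h (h.symm y) = h y := by rw [hy']
    rw [h.apply_symm_apply] at this
    exact this.symm
  · subst heq
    exact hG.neutral h1
  · exact hG.expanding (k := a - M) (by omega) (B := B) (by
      intro u
      have := h2 u
      have e1 : (2 : ℝ) ^ a / 2 ^ M = 2 ^ (a - M) := by
        rw [div_eq_iff (by positivity), ← pow_add]
        congr 1
        omega
      rwa [e1] at this)

end Pool.Agent.K4H36.Knaster
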