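import Pool.Agent.K4H40.NS.Spec

set_option autoImplicit false

namespace Pool.Agent.K4H40.NS

open MvPolynomial Module

namespace M1H36

/-- the exponent vector of a set -/
noncomputable def ind {n : ℕ} (F : Finset (Fin n)) : Fin n →₀ ℕ := ∑ v ∈ F, Finsupp.single v 1

theorem ind_apply {n : ℕ} (F : Finset (Fin n)) (v : Fin n) : ind F v = if v ∈ F then 1 else 0 := by
  classical
  simp [ind, Finsupp.finset_sum_apply, Finsupp.single_apply]

theorem ind_support {n : ℕ} (F : Finset (Fin n)) : (ind F).support = F := by
  ext v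
  simp [ind_apply]

theorem ind_le {n : ℕ} (F : Finset (Fin n)) (e : Fin n →₀ ℕ) : ind F ≤ e ↔ F ⊆ e.support := by
  constructor
  · intro h v hv
    have := h v
    rw [ind_apply, if_pos hv] at this
    simp; omega
  · intro h v
    rw [ind_apply]
    split_ifs with hv
    · have := h hv
      simp at this; omega
    · exact Nat.zero_le _

theorem mem_SR {n : ℕ} (K : Type) [Field K] (Δ : Cplx n) (f : R n K) :
    f ∈ SR K Δ ↔ ∀ e ∈ f.support, e.support ∉ Δ.faces := by
  have h : {p : R n K | ∃ F : Finset (Fin n), F ∉ Δ.faces ∧ p = ∏ v ∈ F, X v} =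
      (fun s => monomial s (1 : K)) '' {e | ∃ F : Finset (Fin n), F ∉ Δ.faces ∧ e = ind F} := by
    ext p
    constructor
    · rintro ⟨F, hF, rfl⟩
      refine ⟨ind F, ⟨F, hF, rfl⟩, ?_⟩
      simp only [ind]
      rw [monomial_sum_one]
      rfl
    · rintro ⟨e, ⟨F, hF, rfl⟩, rfl⟩
      refine ⟨F, hF, ?_⟩
      simp only [ind]
      rw [monomial_sum_one]
      rfl
  unfold SR
  rw [h, mem_ideal_span_monomial_image]
  refine forall₂_congr fun e he => ?_
  constructor
  · rintro ⟨s, ⟨F, hF, rfl⟩, hle⟩ hcon
    exact hF (Δ.down _ hcon F ((ind_le F e).1 hle))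
  · intro hns
    exact ⟨ind e.support, ⟨e.support, hns, rfl⟩, (ind_le _ _).2 (le_refl _)⟩

/-- the exponents of degree `d` whose support is not a face -/
def A {n : ℕ} (Δ : Cplx n) (d : ℕ) : Set (Fin n →₀ ℕ) := {e | e.degree = d ∧ e.support ∉ Δ.faces}

/-- those divisible by one of smaller degree -/
def B {n : ℕ} (Δ : Cplx n) (d : ℕ) : Set (Fin n →₀ ℕ) :=
  {e | ∃ v, ∃ e' ∈ A Δ d, e = Finsupp.single v 1 + e'}

theorem Id_eq {n : ℕ} (K : Type) [Field K] (Δ : Cplx n) (d : ℕ) :
    Id (SR K Δ) d = restrictSupport K (A Δ d) := by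
  ext f
  rw [mem_restrictSupport_iff]
  unfold Id hs
  rw [Submodule.mem_inf, Submodule.restrictScalars_mem, mem_SR, mem_homogeneousSubmodule]
  constructor
  · rintro ⟨h1, h2⟩ e he
    have he' : e ∈ f.support := he
    refine ⟨?_, h1 e he'⟩
    have := h2 (mem_support_iff.1 he')
    rw [Finsupp.degree_eq_weight_one]
    exact this
  · intro h
    refine ⟨fun e he => (h he).2, ?_⟩
    intro e he
    have := (h (mem_support_iff.2 he)).1
    rw [Finsupp.degree_eq_weight_one] at this
    exact this

theorem RI_eq {n : ℕ} (K : Type) [Field K] (Δ : Cplx n) (d : ℕ) :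
    RI (SR K Δ) d = restrictSupport K (B Δ d) := by
  classical
  apply le_antisymm
  · unfold RI
    rw [Submodule.span_le]
    rintro p ⟨x, hx, f, hf, rfl⟩
    rw [Id_eq, mem_restrictSupport_iff] at hf
    have hx' := (mem_homogeneousSubmodule 1 x).1 hx
    show _ ∈ restrictSupport K (B Δ d)
    rw [mem_restrictSupport_iff]
    intro e he
    have h1 := support_mul x f (Finset.mem_coe.1 he)
    rw [Finset.mem_add] at h1
    obtain ⟨a, ha, b, hb, rfl⟩ := h1
    have h2 := hx' (mem_support_iff.1 ha)
    have h3 : a.degree = 1 := by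
      rw [Finsupp.degree_eq_weight_one]; exact h2
    obtain ⟨v, rfl⟩ : ∃ v, a = Finsupp.single v 1 := by
      have h4 : a.sum (fun _ m => m) = 1 := h3
      exact (Finsupp.sum_eq_one_iff a).1 h4
    exact ⟨v, b, hf hb, rfl⟩
  · intro f hf
    rw [mem_restrictSupport_iff] at hf
    rw [← support_sum_monomial_coeff f]
    refine Submodule.sum_mem _ fun e he => ?_
    obtain ⟨v, e', he', rfl⟩ := hf he
    refine Submodule.subset_span ⟨X v, ?_, monomial e' (coeff (Finsupp.single v 1 + e') f), ?_, ?_⟩
    · exact (mem_homogeneousSubmodule 1 _).2 (isHomogeneous_X K v)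
    · rw [Id_eq, monomial_mem_restrictSupport]
      exact Or.inl he'
    · rw [X, monomial_mul, one_mul]

theorem A_finite {n : ℕ} (Δ : Cplx n) (d : ℕ) : (A Δ d).Finite := by
  have h : (A Δ d) ⊆ {e : Fin n →₀ ℕ | e ≤ Finsupp.equivFunOnFinite.symm (fun _ => d)} := by
    intro e he v
    have h1 := he.1
    have := Finsupp.le_degree v e
    simp only [Finsupp.equivFunOnFinite_symm_apply_apply]
    omega
  exact (Set.finite_Iic _).subset h

theorem finrank_rs {n : ℕ} (K : Type) [Field K] (S : Set (Fin n →₀ ℕ)) (hS : S.Finite) :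
    finrank K (restrictSupport K S) = S.ncard := by
  haveI := hS.fintype
  rw [finrank_eq_card_basis (basisRestrictSupport K S), Set.ncard_eq_toFinset_card', Set.toFinset_card]

theorem B_sub {n : ℕ} (Δ : Cplx n) (d : ℕ) : B Δ d ⊆ A Δ (d + 1) := by
  classical
  rintro e ⟨v, e', he', rfl⟩
  refine ⟨?_, ?_⟩
  · rw [map_add, he'.1]
    simp [Finsupp.degree_single]
    omega
  · intro h
    apply he'.2
    refine Δ.down _ h _ ?_
    intro w hw
    simp at hw ⊢
    omega

theorem diff_card {n : ℕ} (Δ : Cplx n) (d : ℕ) :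
    (A Δ (d + 1) \ B Δ d).ncard = mcount Δ d := by
  classical
  unfold mcount
  rw [← Set.ncard_coe_finset]
  symm
  refine Set.ncard_congr (fun F _ => ind F) ?_ ?_ ?_
  · intro F hF
    simp only [Finset.coe_filter, Finset.mem_univ, true_and, Set.mem_setOf_eq] at hF
    obtain ⟨hc, hm⟩ := hF
    refine ⟨⟨?_, ?_⟩, ?_⟩
    · simp only [ind, map_sum, Finsupp.degree_single]
      simp [hc]
    · rw [ind_support]; exact hm.1
    · rintro ⟨v, e', he', h⟩
      apply he'.2
      have h1 : v ∈ F := by
        rw [← ind_support F, h]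
        simp
      have h2 : e'.support ⊆ F.erase v := by
        intro w hw
        have h3 : ind F w = (Finsupp.single v 1 + e' : Fin n →₀ ℕ) w := by rw [h]
        rw [ind_apply, Finsupp.add_apply, Finsupp.single_apply] at h3
        rw [Finsupp.mem_support_iff] at hw
        rw [Finset.mem_erase]
        constructor
        · rintro rfl
          rw [if_pos h1, if_pos rfl] at h3
          omega
        · by_contra hcon
          rw [if_neg hcon] at h3
          omega
      exact Δ.down _ (hm.2 _ (Finset.erase_ssubset h1)) _ h2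
  · intro F G hF hG h
    have : (ind F).support = (ind G).support := by
      have h' : ind F = ind G := h
      rw [h']
    rwa [ind_support, ind_support] at this
  · rintro e ⟨⟨hd, hns⟩, hB⟩
    have hsq : ∀ v ∈ e.support, e.support.erase v ∈ Δ.faces ∧ e v = 1 := by
      intro v hv
      have hv' : e v ≠ 0 := Finsupp.mem_support_iff.1 hv
      have hle : Finsupp.single v 1 ≤ e := by
        intro w
        rw [Finsupp.single_apply]
        split_ifs with hw
        · subst hw; omega
        · exact Nat.zero_le _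
      have he : e = Finsupp.single v 1 + (e - Finsupp.single v 1) := (add_tsub_cancel_of_le hle).symm
      have hdeg : (e - Finsupp.single v 1).degree = d := by
        have := congrArg Finsupp.degree he
        rw [map_add, hd, Finsupp.degree_single] at this
        omega
      have hface : (e - Finsupp.single v 1).support ∈ Δ.faces := by
        by_contra hcon
        exact hB ⟨v, _, ⟨hdeg, hcon⟩, he⟩
      have h1 : e v = 1 := by
        by_contra hne
        apply hns
        refine Δ.down _ hface _ ?_
        intro w hw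
        rw [Finsupp.mem_support_iff] at hw ⊢
        rw [Finsupp.tsub_apply, Finsupp.single_apply]
        split_ifs with hwv
        · subst hwv; omega
        · omega
      refine ⟨?_, h1⟩
      refine Δ.down _ hface _ ?_
      intro w hw
      rw [Finset.mem_erase, Finsupp.mem_support_iff] at hw
      rw [Finsupp.mem_support_iff, Finsupp.tsub_apply, Finsupp.single_apply, if_neg (fun h => hw.1 h.symm)]
      simpa using hw.2
    have hind : ind e.support = e := by
      ext w
      rw [ind_apply]
      split_ifs with hw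
      · exact (hsq w hw).2.symm
      · rw [Finsupp.notMem_support_iff] at hw
        exact hw.symm
    refine ⟨e.support, ?_, hind⟩
    simp only [Finset.coe_filter, Finset.mem_univ, true_and, Set.mem_setOf_eq]
    refine ⟨?_, hns, ?_⟩
    · have h1 : (ind e.support).degree = e.support.card := by
        simp only [ind, map_sum, Finsupp.degree_single]
        simp
      rw [hind, hd] at h1
      exact h1.symm
    · intro G hG
      obtain ⟨hsub, v, hv, hvG⟩ := (Finset.ssubset_iff_of_subset hG.subset).1 hG |> fun ⟨v, hv, hvG⟩ => (⟨hG.subset, v, hv, hvG⟩ : G ⊆ e.support ∧ ∃ v, v ∈ e.support ∧ v ∉ G)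
      refine Δ.down _ (hsq v hv).1 _ ?_
      intro w hw
      rw [Finset.mem_erase]
      exact ⟨fun h => hvG (h ▸ hw), hsub hw⟩

end M1H36

open M1H36 in
theorem m1 : StM1 := by
  intro n K _ Δ d
  rw [Id_eq, RI_eq, finrank_rs K _ (A_finite Δ (d + 1)),
    finrank_rs K _ ((A_finite Δ (d + 1)).subset (B_sub Δ d)), ← diff_card Δ d]
  have := Set.ncard_sdiff_add_ncard_of_subset (B_sub Δ d) (A_finite Δ (d + 1))
  omega

end Pool.Agent.K4H40.NS
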