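import Pool.Agent.K4H72.Til.Spec

open Set

namespace Pool.Agent.K4H72.Til.T13H36

theorem deform_aux
    (approx : ∀ (F : Set ℂ) (hF : F.Finite) (η : ℝ) (hη : 0 < η),
      ∃ M : ℕ, 0 < M ∧ ∃ φ : AddSubgroup.closure F →+ ℤ × ℤ,
        ∀ f (hf : f ∈ F), ‖(M : ℂ) * f - E (φ ⟨f, AddSubgroup.subset_closure hf⟩)‖ ≤ η)
    (choice : ∃ c : Set ℂ → ℂ, (∀ A : Set ℂ, A.Finite → A.Nonempty → c A ∈ A) ∧
      ∀ (A : Set ℂ) (t : ℂ), A.Finite → A.Nonempty → c ((fun z => z + t) '' A) = c A + t)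
    (E_sub : ∀ (v w : ℤ × ℤ), E (v - w) = E v - E w)
    (E_add : ∀ (v w : ℤ × ℤ), E (v + w) = E v + E w)
    (E_cases : ∀ (v : ℤ × ℤ), v = 0 ∨ (v ∈ six ∧ ‖E v‖ = 1) ∨ 3 ≤ ‖E v‖ ^ 2)
    (lip : ∀ (P : Set ℂ) (D : ℝ) (hD : 0 < D) (hdense : ∀ x : ℂ, ∃ p ∈ P, ‖x - p‖ ≤ D / 4)
      (u : ℂ → ℂ) (η : ℝ) (hη : 0 ≤ η) (hu : ∀ p ∈ P, ∀ p' ∈ P, ‖p - p'‖ ≤ D → ‖u p - u p'‖ ≤ η),
      ∀ p ∈ P, ∀ p' ∈ P, ‖u p - u p'‖ ≤ η * (1 + 4 * ‖p - p'‖ / D))
    (mem_closure : ∀ (P : Set ℂ) (D : ℝ) (hD : 0 < D) (hdense : ∀ x : ℂ, ∃ p ∈ P, ‖x - p‖ ≤ D / 4)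
      (G : AddSubgroup ℂ) (hG : ∀ p ∈ P, ∀ p' ∈ P, ‖p - p'‖ ≤ D → p - p' ∈ G),
      ∀ p ∈ P, ∀ p' ∈ P, p - p' ∈ G)
    (near : ∀ (P : Set ℂ) (D : ℝ) (hD : 0 < D) (hdense : ∀ x : ℂ, ∃ p ∈ P, ‖x - p‖ ≤ D / 4)
      (Φ : ℂ → ℤ × ℤ) (M : ℝ) (hM : 1 ≤ M)
      (hΦ : ∀ p ∈ P, ∀ p' ∈ P, ‖p - p'‖ ≤ D → ‖(M : ℂ) * (p - p') - E (Φ p - Φ p')‖ ≤ D / 8),
      ∀ v : ℤ × ℤ, ∃ p ∈ P, ‖E (Φ p - v)‖ ≤ M * D)
    (P : Set ℂ) (D : ℝ) (hD : 0 < D) (hdense : ∀ x : ℂ, ∃ p ∈ P, ‖x - p‖ ≤ D / 4)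
    (hfin : {d : ℂ | ∃ p ∈ P, ∃ p' ∈ P, d = p - p' ∧ ‖d‖ ≤ 8 * D}.Finite) :
    ∃ (h : ℝ) (g : ℤ × ℤ → ℂ), Def1 h g ∧ ∀ R2 : ℝ, ∃ R : ℝ, ∀ x y : ℂ,
      (∀ p : ℂ, ‖p‖ < R → (x + p ∈ P ↔ y + p ∈ P)) →
        ∃ τ : ℤ × ℤ, ∀ v, ‖g v - x‖ ≤ R2 → g (v + τ) = g v + (y - x) := by
  classical
  set F : Set ℂ := {d : ℂ | ∃ p ∈ P, ∃ p' ∈ P, d = p - p' ∧ ‖d‖ ≤ 8 * D} with hFdef
  obtain ⟨η, hη, hη1, hη2⟩ : ∃ η : ℝ, 0 < η ∧ η ≤ D / 8 ∧ η * (25 + 8 / D) ≤ 1 / 20 := by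
    refine ⟨min (D / 8) (1 / 20 / (25 + 8 / D)), ?_, min_le_left _ _, ?_⟩
    · have : 0 < 25 + 8 / D := by positivity
      positivity
    · have h1 : 0 < 25 + 8 / D := by positivity
      calc min (D / 8) (1 / 20 / (25 + 8 / D)) * (25 + 8 / D)
          ≤ (1 / 20 / (25 + 8 / D)) * (25 + 8 / D) :=
            mul_le_mul_of_nonneg_right (min_le_right _ _) h1.le
        _ = 1 / 20 := by field_simp
  obtain ⟨M, hM0, φ, hφ⟩ := approx F hfin η hη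
  have hM1 : (1 : ℝ) ≤ (M : ℝ) := by exact_mod_cast hM0
  have hMpos : (0 : ℝ) < (M : ℝ) := by linarith
  have hMc : (M : ℂ) ≠ 0 := by exact_mod_cast hM0.ne'
  obtain ⟨p0, hp0, -⟩ := hdense 0
  have hmem : ∀ p ∈ P, ∀ p' ∈ P, p - p' ∈ AddSubgroup.closure F := by
    refine mem_closure P D hD hdense _ ?_
    intro p hp p' hp' hpp
    exact AddSubgroup.subset_closure ⟨p, hp, p', hp', rfl, by linarith⟩
  set Φ : ℂ → ℤ × ℤ := fun p => if hp : p ∈ P then φ ⟨p - p0, hmem p hp p0 hp0⟩ else 0 with hΦdef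
  have hΦsub : ∀ p (hp : p ∈ P) p' (hp' : p' ∈ P), Φ p - Φ p' = φ ⟨p - p', hmem p hp p' hp'⟩ := by
    intro p hp p' hp'
    simp only [hΦdef, dif_pos hp, dif_pos hp']
    rw [← map_sub]
    congr 1
    apply Subtype.ext
    simp
  have hΦF : ∀ p ∈ P, ∀ p' ∈ P, ‖p - p'‖ ≤ 8 * D → ‖(M : ℂ) * (p - p') - E (Φ p - Φ p')‖ ≤ η := by
    intro p hp p' hp' hpp
    have hf : p - p' ∈ F := ⟨p, hp, p', hp', rfl, hpp⟩
    have := hφ _ hf
    rw [hΦsub p hp p' hp']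
    exact this
  set u : ℂ → ℂ := fun p => (M : ℂ) * p - E (Φ p) with hu
  have hu1 : ∀ p p', u p - u p' = (M : ℂ) * (p - p') - E (Φ p - Φ p') := by
    intro p p'
    simp only [hu, E_sub]; ring
  have hu2 : ∀ p ∈ P, ∀ p' ∈ P, ‖p - p'‖ ≤ 8 * D → ‖u p - u p'‖ ≤ η := by
    intro p hp p' hp' hpp
    rw [hu1]; exact hΦF p hp p' hp' hpp
  have hlip : ∀ p ∈ P, ∀ p' ∈ P, ‖u p - u p'‖ ≤ η * (1 + 4 * ‖p - p'‖ / D) :=
    lip P D hD hdense u η hη.le (fun p hp p' hp' h => hu2 p hp p' hp' (by linarith))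
  have hnear := near P D hD hdense Φ M hM1 (by
    intro p hp p' hp' hpp
    have := hΦF p hp p' hp' (by linarith)
    push_cast
    linarith)
  -- general distance estimate
  have hdist : ∀ p ∈ P, ∀ q ∈ P, ∀ s : ℝ, ‖E (Φ p - Φ q)‖ ≤ 2 * (M * D) + s → 0 ≤ s →
      ‖p - q‖ ≤ 6 * D + 2 * s := by
    intro p hp q hq s hs hs0
    have h1 := hlip p hp q hq
    rw [hu1] at h1
    have h2 : ‖(M : ℂ) * (p - q)‖ = M * ‖p - q‖ := by
      rw [norm_mul]; simp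
    have h3 : ‖(M : ℂ) * (p - q)‖ ≤ ‖(M : ℂ) * (p - q) - E (Φ p - Φ q)‖ + ‖E (Φ p - Φ q)‖ := by
      have := norm_add_le ((M : ℂ) * (p - q) - E (Φ p - Φ q)) (E (Φ p - Φ q))
      simpa using this
    have h4 : η * (4 * ‖p - q‖ / D) ≤ ‖p - q‖ / 2 := by
      have : η * (4 * ‖p - q‖ / D) = (η / D) * (4 * ‖p - q‖) := by ring
      rw [this]
      have h5 : η / D ≤ 1 / 8 := by
        rw [div_le_iff₀ hD]; linarith
      nlinarith [norm_nonneg (p - q)]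
    have h6 : η * (1 + 4 * ‖p - q‖ / D) = η + η * (4 * ‖p - q‖ / D) := by ring
    rw [h6] at h1
    have h7 : M * ‖p - q‖ ≤ 2 * (M * D) + s + η + ‖p - q‖ / 2 := by
      rw [h2] at h3; linarith
    have h8 : ‖p - q‖ / 2 ≤ M * ‖p - q‖ / 2 := by nlinarith [norm_nonneg (p - q)]
    have h9 : M * ‖p - q‖ ≤ 4 * (M * D) + 2 * s + 2 * η := by linarith
    have h10 : M * ‖p - q‖ ≤ M * (6 * D + 2 * s) := by nlinarith
    exact le_of_mul_le_mul_left h10 hMpos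
  set N : ℤ × ℤ → Set ℂ := fun v => {p | p ∈ P ∧ ‖E (Φ p - v)‖ ≤ M * D} with hN
  have hNne : ∀ v, (N v).Nonempty := by
    intro v
    obtain ⟨p, hp, h⟩ := hnear v
    exact ⟨p, hp, h⟩
  have hNN : ∀ v w, ∀ p ∈ N v, ∀ q ∈ N w, ‖E (Φ p - Φ q)‖ ≤ 2 * (M * D) + ‖E (v - w)‖ := by
    intro v w p hp q hq
    have h1 : E (Φ p - Φ q) = E (Φ p - v) - E (Φ q - w) + E (v - w) := by
      simp only [E_sub]; ring
    rw [h1]
    have h2 := norm_add_le (E (Φ p - v) - E (Φ q - w)) (E (v - w))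
    have h3 := norm_sub_le (E (Φ p - v)) (E (Φ q - w))
    have h4 := hp.2
    have h5 := hq.2
    linarith
  have hE0 : E (0 : ℤ × ℤ) = 0 := by simp [E]
  have hNd : ∀ v, ∀ p ∈ N v, ∀ q ∈ N v, ‖p - q‖ ≤ 6 * D := by
    intro v p hp q hq
    have h1 := hNN v v p hp q hq
    have h2 := hdist p hp.1 q hq.1 0 (by simpa [hE0] using h1) le_rfl
    linarith
  have hNfin : ∀ v, (N v).Finite := by
    intro v
    obtain ⟨q, hq⟩ := hNne v
    refine (hfin.image (fun d => d + q)).subset ?_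
    intro p hp
    refine ⟨p - q, ⟨p, hp.1, q, hq.1, rfl, ?_⟩, by simp⟩
    have := hNd v p hp q hq
    linarith
  obtain ⟨c, hc1, hc2⟩ := choice
  have hAfin : ∀ v, (u '' N v).Finite := fun v => (hNfin v).image _
  have hAne : ∀ v, (u '' N v).Nonempty := fun v => (hNne v).image _
  have hcm : ∀ v, ∃ p ∈ N v, u p = c (u '' N v) := fun v => hc1 _ (hAfin v) (hAne v)
  refine ⟨1 / M, fun v => (E v + c (u '' N v)) / M, ⟨by positivity, ?_⟩, ?_⟩
  · intro v w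
    have e1 : (E v + c (u '' N v)) / (M : ℂ) - (E w + c (u '' N w)) / M - ((1 / M : ℝ) : ℂ) * E (v - w) =
        (c (u '' N v) - c (u '' N w)) / M := by
      rw [E_sub]; push_cast; field_simp; ring
    have e2 : ‖(c (u '' N v) - c (u '' N w)) / (M : ℂ)‖ = ‖c (u '' N v) - c (u '' N w)‖ / M := by
      rw [norm_div]; simp
    rw [e1, e2]
    by_cases hvw : v = w
    · subst hvw; simp [hE0]
    · have hE1 : 1 ≤ ‖E (v - w)‖ := by
        rcases E_cases (v - w) with h | h | h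
        · exact absurd (sub_eq_zero.1 h) hvw
        · exact h.2.ge
        · nlinarith [norm_nonneg (E (v - w))]
      obtain ⟨p, hp, hpc⟩ := hcm v
      obtain ⟨q, hq, hqc⟩ := hcm w
      have h1 := hdist p hp.1 q hq.1 ‖E (v - w)‖ (hNN v w p hp q hq) (norm_nonneg _)
      have h2 := hlip p hp.1 q hq.1
      rw [hpc, hqc] at h2
      have h3 : 4 * ‖p - q‖ / D ≤ 24 + 8 * ‖E (v - w)‖ / D := by
        rw [div_le_iff₀ hD]
        have : (24 + 8 * ‖E (v - w)‖ / D) * D = 24 * D + 8 * ‖E (v - w)‖ := by field_simp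
        rw [this]; linarith
      have h4 : η * (1 + 4 * ‖p - q‖ / D) ≤ η * ((25 + 8 / D) * ‖E (v - w)‖) := by
        refine mul_le_mul_of_nonneg_left ?_ hη.le
        have h5 : 8 * ‖E (v - w)‖ / D = 8 / D * ‖E (v - w)‖ := by ring
        rw [h5] at h3
        nlinarith
      have h6 : η * ((25 + 8 / D) * ‖E (v - w)‖) ≤ 1 / 20 * ‖E (v - w)‖ := by
        rw [← mul_assoc]
        exact mul_le_mul_of_nonneg_right hη2 (norm_nonneg _)
      rw [div_le_iff₀ hMpos]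
      have h7 : 1 / 20 * (1 / (M : ℝ)) * ‖E (v - w)‖ * M = 1 / 20 * ‖E (v - w)‖ := by field_simp
      rw [h7]
      linarith
  · intro R2
    refine ⟨|R2| + 20 * D, ?_⟩
    intro x y hxy
    obtain ⟨p1, hp1, hp1x⟩ := hdense x
    have hloc : ∀ p : ℂ, ‖p - x‖ < |R2| + 20 * D → (p ∈ P ↔ p + (y - x) ∈ P) := by
      intro p hp
      have := hxy (p - x) hp
      have e1 : x + (p - x) = p := by ring
      have e2 : y + (p - x) = p + (y - x) := by ring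
      rw [e1, e2] at this
      exact this
    have hR2 := abs_nonneg R2
    have hp1' : p1 + (y - x) ∈ P := by
      refine (hloc p1 ?_).1 hp1
      rw [norm_sub_rev]; linarith
    refine ⟨Φ (p1 + (y - x)) - Φ p1, ?_⟩
    set τ := Φ (p1 + (y - x)) - Φ p1 with hτ
    have hΦτ : ∀ p ∈ P, p + (y - x) ∈ P → Φ (p + (y - x)) = Φ p + τ := by
      intro p hp hp'
      have h1 := hΦsub (p + (y - x)) hp' (p1 + (y - x)) hp1'
      have h2 := hΦsub p hp p1 hp1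
      have h3 : (⟨p + (y - x) - (p1 + (y - x)), hmem _ hp' _ hp1'⟩ : AddSubgroup.closure F) =
          ⟨p - p1, hmem p hp p1 hp1⟩ := by
        apply Subtype.ext
        simp
      rw [h3, ← h2] at h1
      rw [hτ]
      have h4 : Φ (p + (y - x)) = Φ p - Φ p1 + Φ (p1 + (y - x)) := by
        rw [← h1]; abel
      rw [h4]; abel
    intro v hv
    obtain ⟨p, hp, hpc⟩ := hcm v
    have hpg : ‖p - (E v + c (u '' N v)) / (M : ℂ)‖ ≤ D := by
      have e1 : p - (E v + c (u '' N v)) / (M : ℂ) = E (Φ p - v) / M := by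
        rw [← hpc]
        simp only [hu, E_sub]
        field_simp
        ring
      rw [e1, norm_div]
      have h1 := hp.2
      have : ‖(M : ℂ)‖ = M := by simp
      rw [this, div_le_iff₀ hMpos]
      linarith
    have hpx : ‖p - x‖ ≤ |R2| + D := by
      have h1 := norm_add_le (p - (E v + c (u '' N v)) / (M : ℂ)) ((E v + c (u '' N v)) / (M : ℂ) - x)
      have e1 : p - (E v + c (u '' N v)) / (M : ℂ) + ((E v + c (u '' N v)) / (M : ℂ) - x) = p - x := by ring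
      rw [e1] at h1
      have h2 := le_abs_self R2
      linarith
    have hNx : ∀ q ∈ N v, ‖q - x‖ < |R2| + 20 * D := by
      intro q hq
      have h1 := norm_add_le (q - p) (p - x)
      have e1 : q - p + (p - x) = q - x := by ring
      rw [e1] at h1
      have h2 := hNd v q hq p hp
      linarith
    have hτN : ∀ q ∈ P, q + (y - x) ∈ P → (q ∈ N v ↔ q + (y - x) ∈ N (v + τ)) := by
      intro q hq hq'
      simp only [hN, mem_setOf_eq]
      rw [hΦτ q hq hq']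
      have : Φ q + τ - (v + τ) = Φ q - v := by abel
      rw [this]
      exact ⟨fun h => ⟨hq', h.2⟩, fun h => ⟨hq, h.2⟩⟩
    have hpP' : p + (y - x) ∈ P := (hloc p (hNx p hp)).1 hp.1
    have hp' : p + (y - x) ∈ N (v + τ) := (hτN p hp.1 hpP').1 hp
    have hNeq : N (v + τ) = (fun z => z + (y - x)) '' N v := by
      ext q
      constructor
      · intro hq
        have h1 := hNd (v + τ) q hq _ hp'
        have h2 : ‖(q - (y - x)) - x‖ < |R2| + 20 * D := by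
          have h3 := norm_add_le (q - (p + (y - x))) (p - x)
          have e1 : q - (p + (y - x)) + (p - x) = q - (y - x) - x := by ring
          rw [e1] at h3
          linarith
        have h4 : q - (y - x) ∈ P := by
          refine (hloc _ h2).2 ?_
          rw [sub_add_cancel]; exact hq.1
        refine ⟨q - (y - x), ?_, by simp⟩
        refine (hτN _ h4 (by rw [sub_add_cancel]; exact hq.1)).2 ?_
        rw [sub_add_cancel]; exact hq
      · rintro ⟨r, hr, rfl⟩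
        exact (hτN r hr.1 ((hloc r (hNx r hr)).1 hr.1)).1 hr
    have hA : u '' N (v + τ) = (fun z => z + ((M : ℂ) * (y - x) - E τ)) '' (u '' N v) := by
      rw [hNeq, image_image, image_image]
      refine image_congr ?_
      intro r hr
      have h1 := hΦτ r hr.1 ((hloc r (hNx r hr)).1 hr.1)
      simp only [hu]
      rw [h1, E_add]
      ring
    show (E (v + τ) + c (u '' N (v + τ))) / (M : ℂ) = (E v + c (u '' N v)) / (M : ℂ) + (y - x)
    rw [hA, hc2 _ _ (hAfin v) (hAne v), E_add]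
    field_simp
    ring

end Pool.Agent.K4H72.Til.T13H36
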